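import Pool.Agent.Q178.Jets.Main

/-!
# Non-transversality sets which are not countable unions of submanifolds

Here `X = Y = ℝ`, `n = 1` and `p = 1`. For every finite `r ≥ 1` there is a closed embedded
hypersurface `A` of class `C^r` of `J^1(ℝ, ℝ)` such that `Ã` is not the union of countably many
submanifolds of class `C^{r-1}` and of codimension `> 1` of `J^2(ℝ, ℝ)`; moreover, it is not the
union of countably many submanifolds of class `C^q` and of codimension `> 1` when `2 q ≥ r`.

In the coordinates `(x, y, z)` of `J^1(ℝ, ℝ)` the hypersurface is `y = f(x, z)` with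
`f = x z - ∑ 4^{-n (r + 1)} sin (4^n x) η (4^n z)` for `r ≥ 2`, where `η ≥ 0` is smooth of period
`1`, and `f = x z - x |x| - x k(z)` for `r = 1`, where `k ≥ 0` is smooth and vanishes exactly on the
Cantor set.
-/

set_option autoImplicit false

open Set

namespace Pool.Agent.Results.MP_5de00f_gt.NoDecomposition

open Q178.Jets

/-- For every `r ≥ 1` there is a closed embedded hypersurface `A` of class `C^r` of `J^1(ℝ, ℝ)`
such that no countable family of submanifolds of `J^2(ℝ, ℝ)` of class `C^q` and of
codimension `> 1` has the union `Ã`, where `q = r - 1` or `2 q ≥ r`. -/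
theorem result (r : ℕ) (hr : 1 ≤ r) : ∃ A : Set (J 1), IsClosed A ∧ IsSubmanifold r 1 A ∧
    ∀ q : ℕ, (q = r - 1 ∨ r ≤ 2 * q) →
      ¬ ∃ M : ℕ → Set (J 2), (∀ i, ∃ c, 1 < c ∧ IsSubmanifold q c (M i)) ∧
        ⋃ i, M i = tilde A :=
  main r hr

end Pool.Agent.Results.MP_5de00f_gt.NoDecomposition
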